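import Mathlib

open Set Filter Topology

namespace Pool.Agent.Results.MP_4bc625_an.GaussianDecay

/-- The lattice points of `γ_z`: for `z ≠ 0` the line through `z` perpendicular to `z`, for
`z = 0` the line through `0` with direction `w`. -/
def gam (w z : ℤ × ℤ) : Set (ℤ × ℤ) :=
  {y | if z = 0 then y.1 * w.2 - y.2 * w.1 = 0 else (y.1 - z.1) * z.1 + (y.2 - z.2) * z.2 = 0}

/-- The square of the Euclidean norm, as a natural number. -/
def nsq (z : ℤ × ℤ) : ℕ := z.1.natAbs ^ 2 + z.2.natAbs ^ 2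

/-- The Euclidean norm. -/
noncomputable def enorm2 (z : ℤ × ℤ) : ℝ := √((z.1 : ℝ) ^ 2 + (z.2 : ℝ) ^ 2)

lemma nsq_cast (z : ℤ × ℤ) : (nsq z : ℤ) = z.1 ^ 2 + z.2 ^ 2 := by
  simp [nsq]

lemma enorm2_eq (z : ℤ × ℤ) : enorm2 z = √(nsq z : ℝ) := by
  have : ((nsq z : ℤ) : ℝ) = (z.1 : ℝ) ^ 2 + (z.2 : ℝ) ^ 2 := by
    rw [nsq_cast]; push_cast; ring
  rw [enorm2, ← this]; norm_num

lemma geo {c : ℝ} (hc0 : 0 < c) (hc1 : c < 1) :
    HasSum (fun m : ℤ => if m = 0 then 0 else c ^ m.natAbs) (2 * c / (1 - c)) := by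
  have h1 : HasSum (fun n : ℕ => c ^ n) (1 - c)⁻¹ := hasSum_geometric_of_lt_one hc0.le hc1
  have h2 : HasSum (fun n : ℕ => c ^ n * c) ((1 - c)⁻¹ * c) := h1.mul_right c
  obtain ⟨F, hF⟩ : ∃ F : ℤ → ℝ, F = fun m : ℤ => if m = 0 then 0 else c ^ m.natAbs := ⟨_, rfl⟩
  have hF0 : F 0 = 0 := by rw [hF]; simp
  have hF1 : ∀ n : ℕ, F ((n + 1 : ℕ) : ℤ) = c ^ n * c := by
    intro n
    rw [hF]
    simp only
    rw [if_neg (by omega), ← pow_succ, Int.natAbs_natCast]
  have hF2 : ∀ n : ℕ, F (-((n : ℤ) + 1)) = c ^ n * c := by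
    intro n
    rw [hF]
    simp only
    rw [if_neg (by omega), ← pow_succ]
    have : (-((n : ℤ) + 1)).natAbs = n + 1 := by omega
    rw [this]
  rw [← hF]
  have hA : HasSum (fun n : ℕ => F (n : ℤ)) ((1 - c)⁻¹ * c) := by
    have h3 : HasSum (fun n : ℕ => F ((n + 1 : ℕ) : ℤ)) ((1 - c)⁻¹ * c) := by
      simp_rw [hF1]; exact h2
    have h4 := (hasSum_nat_add_iff (f := fun n : ℕ => F (n : ℤ)) 1).mp h3
    simpa [hF0] using h4
  have hB : HasSum (fun n : ℕ => F (-((n : ℤ) + 1))) ((1 - c)⁻¹ * c) := by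
    simp_rw [hF2]; exact h2
  have h := HasSum.of_nat_of_neg_add_one hA hB
  have e : (1 - c)⁻¹ * c + (1 - c)⁻¹ * c = 2 * c / (1 - c) := by
    rw [div_eq_mul_inv]; ring
  rwa [e] at h

/-- `z = g p` with `p` primitive. -/
def Dec (z : ℤ × ℤ) (g : ℕ) (p : ℤ × ℤ) : Prop :=
  0 < g ∧ z.1 = g * p.1 ∧ z.2 = g * p.2 ∧ IsCoprime p.1 p.2

lemma exists_dec {z : ℤ × ℤ} (hz : z ≠ 0) : ∃ g p, Dec z g p := by
  have hg : 0 < Int.gcd z.1 z.2 := by
    rw [Nat.pos_iff_ne_zero, Ne, Int.gcd_eq_zero_iff]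
    rintro ⟨h1, h2⟩
    exact hz (Prod.ext h1 h2)
  obtain ⟨m, n, h1, h2, h3⟩ := Int.exists_gcd_one hg
  refine ⟨Int.gcd z.1 z.2, (m, n), hg, ?_, ?_, Int.isCoprime_iff_gcd_eq_one.mpr h1⟩
  · rw [mul_comm]; exact h2
  · rw [mul_comm]; exact h3

lemma nsq_dec {z : ℤ × ℤ} {g : ℕ} {p : ℤ × ℤ} (h : Dec z g p) : nsq z = g ^ 2 * nsq p := by
  obtain ⟨-, h1, h2, -⟩ := h
  have : (nsq z : ℤ) = (g ^ 2 * nsq p : ℕ) := by
    push_cast
    rw [nsq_cast, nsq_cast, h1, h2]; ring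
  exact_mod_cast this

lemma nsq_pos {p : ℤ × ℤ} (h : IsCoprime p.1 p.2) : 1 ≤ nsq p := by
  rw [Nat.one_le_iff_ne_zero]
  intro h0
  have h1 : p.1 ^ 2 + p.2 ^ 2 = 0 := by rw [← nsq_cast, h0]; rfl
  have h2 : p.1 = 0 := by
    have : p.1 ^ 2 = 0 := by nlinarith [sq_nonneg p.1, sq_nonneg p.2]
    exact (pow_eq_zero_iff two_ne_zero).mp this
  have h3 : p.2 = 0 := by
    have : p.2 ^ 2 = 0 := by nlinarith [sq_nonneg p.1, sq_nonneg p.2]
    exact (pow_eq_zero_iff two_ne_zero).mp this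
  rw [h2, h3] at h
  exact not_isCoprime_zero_zero h

lemma proj {w z : ℤ × ℤ} (hz : z ≠ 0) {g : ℕ} {p : ℤ × ℤ} (hd : Dec z g p) :
    ∃ π : gam w z → ℤ, Function.Injective π ∧
      ∀ y : gam w z, y.1.1 = z.1 - π y * p.2 ∧ y.1.2 = z.2 + π y * p.1 ∧
        nsq y.1 = nsq z + (π y).natAbs ^ 2 * nsq p ∧ (π y = 0 → y.1 = z) := by
  obtain ⟨hg, hz1, hz2, a, b, hab⟩ := hd
  have hg' : (g : ℤ) ≠ 0 := by positivity
  have hmem : ∀ y : gam w z, (y.1.1 - z.1) * p.1 + (y.1.2 - z.2) * p.2 = 0 := by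
    intro y
    have h1 := y.2
    simp only [gam, hz, if_false, Set.mem_ofPred_eq] at h1
    have h2 : (g : ℤ) * ((y.1.1 - z.1) * p.1 + (y.1.2 - z.2) * p.2) = 0 := by
      linear_combination h1 - (y.1.1 - z.1) * hz1 - (y.1.2 - z.2) * hz2
    exact (mul_eq_zero.mp h2).resolve_left hg'
  have e1 : ∀ y : gam w z, y.1.1 = z.1 - (a * (y.1.2 - z.2) - b * (y.1.1 - z.1)) * p.2 := by
    intro y
    linear_combination -(y.1.1 - z.1) * hab + a * hmem y
  have e2 : ∀ y : gam w z, y.1.2 = z.2 + (a * (y.1.2 - z.2) - b * (y.1.1 - z.1)) * p.1 := by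
    intro y
    linear_combination -(y.1.2 - z.2) * hab + b * hmem y
  refine ⟨fun y => a * (y.1.2 - z.2) - b * (y.1.1 - z.1), ?_, ?_⟩
  · intro y y' h
    have h' : a * (y.1.2 - z.2) - b * (y.1.1 - z.1) = a * (y'.1.2 - z.2) - b * (y'.1.1 - z.1) := h
    apply Subtype.ext
    apply Prod.ext
    · rw [e1 y, e1 y', h']
    · rw [e2 y, e2 y', h']
  · intro y
    set m := a * (y.1.2 - z.2) - b * (y.1.1 - z.1) with hm
    refine ⟨e1 y, e2 y, ?_, fun h => Prod.ext ?_ ?_⟩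
    · have : (nsq y.1 : ℤ) = (nsq z + m.natAbs ^ 2 * nsq p : ℕ) := by
        push_cast
        rw [nsq_cast, nsq_cast, nsq_cast, sq_abs]
        have E1 := e1 y
        have E2 := e2 y
        rw [← hm] at E1 E2
        linear_combination (y.1.1 + (z.1 - m * p.2)) * E1 + (y.1.2 + (z.2 + m * p.1)) * E2 +
          2 * m * p.1 * hz2 - 2 * m * p.2 * hz1
      exact_mod_cast this
    · have h' : m = 0 := h
      rw [e1 y, ← hm, h']; ring
    · have h' : m = 0 := h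
      rw [e2 y, ← hm, h']; ring

/-- The value at `z` is bounded by the sum over the rest of the line. -/
lemma lineSum {w z : ℤ × ℤ} (hz : z ≠ 0) {f : ℤ × ℤ → ℂ} (h0 : ∑' y : gam w z, f y = 0)
    {B : ℤ → ℝ} (hB : Summable B) (hB0 : ∀ m, 0 ≤ B m) {π : gam w z → ℤ}
    (hπ : Function.Injective π)
    (hb : ∀ y : gam w z, y.1 ≠ z → ‖f y‖ ≤ B (π y)) : ‖f z‖ ≤ ∑' m, B m := by
  have hz' : z ∈ gam w z := by simp [gam, hz]
  have hcmp : ∀ y : gam w z, (if y = ⟨z, hz'⟩ then (0 : ℝ) else ‖f y‖) ≤ B (π y) := by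
    intro y
    split_ifs with h1
    · exact hB0 _
    · exact hb y fun h => h1 (Subtype.ext h)
  have hsum2 : Summable fun y : gam w z => B (π y) := hB.comp_injective hπ
  have hsum3 : Summable fun y : gam w z => if y = ⟨z, hz'⟩ then (0 : ℝ) else ‖f y‖ := by
    refine Summable.of_nonneg_of_le (fun y => ?_) hcmp hsum2
    split_ifs <;> positivity
  have hsum1 : Summable fun y : gam w z => ‖f y‖ := by
    refine (summable_congr_cofinite ?_).mp hsum3
    filter_upwards [(Set.finite_singleton (⟨z, hz'⟩ : gam w z)).compl_mem_cofinite] with y hy'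
    rw [if_neg (by simpa using hy')]
  have hsplit := (Summable.of_norm hsum1).tsum_eq_add_tsum_ite (⟨z, hz'⟩ : gam w z)
  rw [h0] at hsplit
  have hfz : f z = -∑' y : gam w z, (if y = ⟨z, hz'⟩ then 0 else f y) := by
    linear_combination -hsplit
  rw [hfz, norm_neg]
  have hnorm : ∀ y : gam w z, ‖(if y = ⟨z, hz'⟩ then (0 : ℂ) else f y)‖ =
      if y = ⟨z, hz'⟩ then (0 : ℝ) else ‖f y‖ := by
    intro y
    split_ifs <;> simp
  have hsum4 : Summable fun y : gam w z => ‖(if y = ⟨z, hz'⟩ then (0 : ℂ) else f y)‖ := by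
    simp_rw [hnorm]
    exact hsum3
  refine (norm_tsum_le_tsum_norm hsum4).trans ?_
  simp_rw [hnorm]
  exact (hsum3.tsum_le_tsum hcmp hsum2).trans (tsum_comp_le_tsum_of_inj hB hB0 hπ)

lemma ne_zero_of_le {z y : ℤ × ℤ} (hz : z ≠ 0) (h : nsq z ≤ nsq y) : y ≠ 0 := by
  rintro rfl
  obtain ⟨g, p, hd⟩ := exists_dec hz
  have h1 := nsq_dec hd
  have h2 := nsq_pos hd.2.2.2
  have h3 := hd.1
  have h4 : nsq (0 : ℤ × ℤ) = 0 := by simp [nsq]
  have : 1 ≤ g ^ 2 * nsq p := Nat.one_le_iff_ne_zero.mpr (by positivity)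
  omega

lemma enorm2_mono {z y : ℤ × ℤ} (h : nsq z ≤ nsq y) : enorm2 z ≤ enorm2 y := by
  rw [enorm2_eq, enorm2_eq]
  exact Real.sqrt_le_sqrt (by exact_mod_cast h)

/-- Bounding the value at `z` by a constant times the geometric sum. -/
lemma bound {w z : ℤ × ℤ} (hz : z ≠ 0) {f : ℤ × ℤ → ℂ} (h0 : ∑' y : gam w z, f y = 0)
    {d K : ℝ} (hd0 : 0 < d) (hd1 : d < 1) (hK : 0 ≤ K) {π : gam w z → ℤ}
    (hπ : Function.Injective π) (hπ0 : ∀ y, π y = 0 → y.1 = z)
    (hb : ∀ y : gam w z, π y ≠ 0 → ‖f y‖ ≤ K * d ^ (π y).natAbs) :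
    ‖f z‖ ≤ K * (2 * d / (1 - d)) := by
  have hg := geo hd0 hd1
  rw [← hg.tsum_eq, ← tsum_mul_left]
  refine lineSum hz h0 (hg.summable.mul_left K) (fun m => ?_) hπ fun y hy => ?_
  · split_ifs
    · simp
    · positivity
  · have : π y ≠ 0 := fun h => hy (hπ0 y h)
    rw [if_neg this]
    exact hb y this

/-- One double step of the contraction. -/
lemma contract {w : ℤ × ℤ} {α D d : ℝ} {f : ℤ × ℤ → ℂ} (hd0 : 0 < d) (hd1 : d < 1) (hD : 0 ≤ D)
    {P₀ R N₀ : ℕ} (hP : d ^ P₀ * (2 * d / (1 - d)) ≤ 1 / 4)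
    (hP' : d ^ P₀ * (2 * d / (1 - d)) * (2 * d / (1 - d)) ≤ 1 / 4)
    (hR : d ^ R * (2 * d / (1 - d)) ≤ 1 / 4) (hN : R * P₀ ^ 3 ≤ N₀)
    (h0 : ∀ z, α ≤ enorm2 z → ∑' y : gam w z, f y = 0)
    (hf : ∀ z, z ≠ 0 → α ≤ enorm2 z → N₀ ≤ nsq z → ‖f z‖ ≤ D * (d ^ 2) ^ nsq z) :
    ∀ z, z ≠ 0 → α ≤ enorm2 z → N₀ ≤ nsq z → ‖f z‖ ≤ D * (1 / 2) * (d ^ 2) ^ nsq z := by
  have hS : 0 ≤ 2 * d / (1 - d) := div_nonneg (by linarith) (by linarith)
  set S := 2 * d / (1 - d) with hSdef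
  -- points whose primitive part is large
  have hA : ∀ z, z ≠ 0 → α ≤ enorm2 z → N₀ ≤ nsq z → ∀ g p, Dec z g p → P₀ ≤ nsq p →
      ‖f z‖ ≤ D * (d ^ P₀ * S) * (d ^ 2) ^ nsq z := by
    intro z hz hα hNz g p hdec hPp
    obtain ⟨π, hπ, hy⟩ := proj (w := w) hz hdec
    have hp1 := nsq_pos hdec.2.2.2
    have := bound hz (h0 z hα) hd0 hd1 (K := D * (d ^ 2) ^ nsq z * d ^ P₀) (by positivity) hπ
      (fun y => (hy y).2.2.2) (fun y hm => by
        obtain ⟨-, -, h3, -⟩ := hy y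
        have hle : nsq z ≤ nsq y.1 := by rw [h3]; exact Nat.le_add_right _ _
        have hm1 : 1 ≤ (π y).natAbs := Nat.one_le_iff_ne_zero.mpr (by simpa using hm)
        have hexp : P₀ + (π y).natAbs ≤ 2 * ((π y).natAbs ^ 2 * nsq p) := by
          have j1 : 1 * 1 * P₀ ≤ (π y).natAbs * (π y).natAbs * nsq p :=
            Nat.mul_le_mul (Nat.mul_le_mul hm1 hm1) hPp
          have j2 : 1 * (π y).natAbs * 1 ≤ (π y).natAbs * (π y).natAbs * nsq p :=
            Nat.mul_le_mul (Nat.mul_le_mul hm1 (le_refl (π y).natAbs)) hp1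
          rw [pow_two]
          omega
        have hpw : (d ^ 2) ^ nsq y.1 ≤ (d ^ 2) ^ nsq z * (d ^ P₀ * d ^ (π y).natAbs) := by
          rw [h3, pow_add, ← pow_mul d 2 ((π y).natAbs ^ 2 * nsq p), ← pow_add]
          exact mul_le_mul_of_nonneg_left (pow_le_pow_of_le_one hd0.le hd1.le hexp)
            (by positivity)
        refine (hf y.1 (ne_zero_of_le hz hle) (hα.trans (enorm2_mono hle))
          (hNz.trans hle)).trans ?_
        calc D * (d ^ 2) ^ nsq y.1 ≤ D * ((d ^ 2) ^ nsq z * (d ^ P₀ * d ^ (π y).natAbs)) :=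
              mul_le_mul_of_nonneg_left hpw hD
          _ = D * (d ^ 2) ^ nsq z * d ^ P₀ * d ^ (π y).natAbs := by ring)
    calc ‖f z‖ ≤ D * (d ^ 2) ^ nsq z * d ^ P₀ * S := this
      _ = D * (d ^ P₀ * S) * (d ^ 2) ^ nsq z := by ring
  intro z hz hα hNz
  obtain ⟨g, p, hdec⟩ := exists_dec hz
  have hpow : 0 < (d ^ 2) ^ nsq z := by positivity
  by_cases hPp : P₀ ≤ nsq p
  · refine (hA z hz hα hNz g p hdec hPp).trans ?_
    refine mul_le_mul_of_nonneg_right (mul_le_mul_of_nonneg_left (by linarith) hD) hpow.le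
  · push Not at hPp
    obtain ⟨π, hπ, hy⟩ := proj (w := w) hz hdec
    have hp1 := nsq_pos hdec.2.2.2
    have := bound hz (h0 z hα) hd0 hd1 (K := D * (d ^ 2) ^ nsq z * (d ^ P₀ * S + d ^ R))
      (by positivity) hπ (fun y => (hy y).2.2.2) (fun y hm => by
        obtain ⟨e1, e2, h3, -⟩ := hy y
        have hle : nsq z ≤ nsq y.1 := by rw [h3]; exact Nat.le_add_right _ _
        have hm1 : 1 ≤ (π y).natAbs := Nat.one_le_iff_ne_zero.mpr (by simpa using hm)
        obtain ⟨g', p', hdec'⟩ := exists_dec (ne_zero_of_le hz hle)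
        have j2 : 1 * (π y).natAbs * 1 ≤ (π y).natAbs * (π y).natAbs * nsq p :=
          Nat.mul_le_mul (Nat.mul_le_mul hm1 (le_refl (π y).natAbs)) hp1
        have hexp : (π y).natAbs ≤ 2 * ((π y).natAbs ^ 2 * nsq p) := by
          rw [pow_two]
          omega
        by_cases hPp' : P₀ ≤ nsq p'
        · refine (hA y.1 (ne_zero_of_le hz hle) (hα.trans (enorm2_mono hle))
            (hNz.trans hle) g' p' hdec' hPp').trans ?_
          have hpw : (d ^ 2) ^ nsq y.1 ≤ (d ^ 2) ^ nsq z * d ^ (π y).natAbs := by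
            rw [h3, pow_add, ← pow_mul d 2 ((π y).natAbs ^ 2 * nsq p)]
            exact mul_le_mul_of_nonneg_left (pow_le_pow_of_le_one hd0.le hd1.le hexp)
              (by positivity)
          calc D * (d ^ P₀ * S) * (d ^ 2) ^ nsq y.1
              ≤ D * (d ^ P₀ * S) * ((d ^ 2) ^ nsq z * d ^ (π y).natAbs) :=
                mul_le_mul_of_nonneg_left hpw (by positivity)
            _ ≤ D * (d ^ P₀ * S) * ((d ^ 2) ^ nsq z * d ^ (π y).natAbs) +
                D * d ^ R * ((d ^ 2) ^ nsq z * d ^ (π y).natAbs) :=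
                le_add_of_nonneg_right (by positivity)
            _ = D * (d ^ 2) ^ nsq z * (d ^ P₀ * S + d ^ R) * d ^ (π y).natAbs := by ring
        · push Not at hPp'
          -- then `m` is large
          have hdvd : (g' : ℤ) ∣ π y * nsq p := by
            have hgz : (g : ℤ) ≠ 0 := by have := hdec.1; positivity
            refine ⟨p.1 * p'.2 - p.2 * p'.1, ?_⟩
            have hz1 := hdec.2.1
            have hz2 := hdec.2.2.1
            have hy1 := hdec'.2.1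
            have hy2 := hdec'.2.2.1
            rw [nsq_cast]
            have k1 : (g' : ℤ) * p'.1 = g * p.1 - π y * p.2 := by rw [← hy1, ← hz1]; exact e1
            have k2 : (g' : ℤ) * p'.2 = g * p.2 + π y * p.1 := by rw [← hy2, ← hz2]; exact e2
            linear_combination p.2 * k1 - p.1 * k2
          have hg'le : g' ≤ (π y).natAbs * nsq p := by
            have h5 := Int.natAbs_dvd_natAbs.mpr hdvd
            rw [Int.natAbs_natCast, Int.natAbs_mul, Int.natAbs_natCast] at h5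
            exact Nat.le_of_dvd (by positivity) h5
          have hny := nsq_dec hdec'
          have hlt : R * P₀ ^ 3 < (π y).natAbs ^ 2 * P₀ ^ 3 := by
            have hP0 : 0 < P₀ := by omega
            have hgp : 0 < g' := hdec'.1
            calc R * P₀ ^ 3 ≤ nsq y.1 := hN.trans (hNz.trans hle)
              _ = g' ^ 2 * nsq p' := hny
              _ < g' ^ 2 * P₀ := by
                exact Nat.mul_lt_mul_of_pos_left hPp' (by positivity)
              _ ≤ ((π y).natAbs * P₀) ^ 2 * P₀ := by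
                refine Nat.mul_le_mul_right _ (Nat.pow_le_pow_left (hg'le.trans ?_) 2)
                exact Nat.mul_le_mul_left _ hPp.le
              _ = (π y).natAbs ^ 2 * P₀ ^ 3 := by ring
          have hRm : R < (π y).natAbs ^ 2 := lt_of_mul_lt_mul_right hlt (Nat.zero_le _)
          have hexp2 : (π y).natAbs + R ≤ 2 * ((π y).natAbs ^ 2 * nsq p) := by
            have j3 : R * 1 ≤ (π y).natAbs ^ 2 * nsq p := Nat.mul_le_mul hRm.le hp1
            rw [pow_two] at j3 ⊢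
            omega
          refine (hf y.1 (ne_zero_of_le hz hle) (hα.trans (enorm2_mono hle))
            (hNz.trans hle)).trans ?_
          have hpw : (d ^ 2) ^ nsq y.1 ≤ (d ^ 2) ^ nsq z * (d ^ (π y).natAbs * d ^ R) := by
            rw [h3, pow_add, ← pow_mul d 2 ((π y).natAbs ^ 2 * nsq p), ← pow_add]
            exact mul_le_mul_of_nonneg_left (pow_le_pow_of_le_one hd0.le hd1.le hexp2)
              (by positivity)
          calc D * (d ^ 2) ^ nsq y.1 ≤ D * ((d ^ 2) ^ nsq z * (d ^ (π y).natAbs * d ^ R)) :=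
                mul_le_mul_of_nonneg_left hpw hD
            _ ≤ D * ((d ^ 2) ^ nsq z * (d ^ (π y).natAbs * d ^ R)) +
                D * (d ^ 2) ^ nsq z * (d ^ P₀ * S) * d ^ (π y).natAbs :=
                le_add_of_nonneg_right (by positivity)
            _ = D * (d ^ 2) ^ nsq z * (d ^ P₀ * S + d ^ R) * d ^ (π y).natAbs := by ring)
    calc ‖f z‖ ≤ D * (d ^ 2) ^ nsq z * (d ^ P₀ * S + d ^ R) * S := this
      _ = D * (d ^ 2) ^ nsq z * (d ^ P₀ * S * S + d ^ R * S) := by ring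
      _ ≤ D * (d ^ 2) ^ nsq z * (1 / 2) :=
          mul_le_mul_of_nonneg_left (by linarith) (by positivity)
      _ = D * (1 / 2) * (d ^ 2) ^ nsq z := by ring

/-- **Uniqueness for functions of Gaussian decay.**  Let `‖f z‖ ≤ C * c ^ (|z|^2)` with some
`c < 1`.  If the sums of `f` over all lines `γ_z` with `|z| ≥ α` vanish, then `f z = 0` for all
`|z| ≥ α`. -/
theorem result (w : ℤ × ℤ) (_hw : w ≠ 0) (α : ℝ) (f : ℤ × ℤ → ℂ) (C c : ℝ) (hc0 : 0 < c)
    (hc : c < 1) (hf : ∀ z, ‖f z‖ ≤ C * c ^ nsq z)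
    (h0 : ∀ z, α ≤ enorm2 z → ∑' y : gam w z, f y = 0) :
    ∀ z, α ≤ enorm2 z → f z = 0 := by
  obtain ⟨d, hd0, hd1, hdc⟩ : ∃ d : ℝ, 0 < d ∧ d < 1 ∧ d ^ 2 = c :=
    ⟨√c, Real.sqrt_pos.mpr hc0, by rw [Real.sqrt_lt' one_pos]; linarith, Real.sq_sqrt hc0.le⟩
  subst hdc
  have hC : 0 ≤ C := by
    have := (norm_nonneg _).trans (hf 0)
    simpa [nsq] using this
  have hS : 0 ≤ 2 * d / (1 - d) := div_nonneg (by linarith) (by linarith)
  have hlim : ∀ K : ℝ, ∃ n : ℕ, d ^ n * K ≤ 1 / 4 := by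
    intro K
    have ht : Tendsto (fun n : ℕ => d ^ n * K) atTop (𝓝 (0 * K)) :=
      (tendsto_pow_atTop_nhds_zero_of_lt_one hd0.le hd1).mul_const _
    rw [zero_mul] at ht
    obtain ⟨n, hn⟩ := (ht.eventually (ge_mem_nhds (by norm_num : (0 : ℝ) < 1 / 4))).exists
    exact ⟨n, hn⟩
  obtain ⟨R, hR⟩ := hlim (2 * d / (1 - d))
  obtain ⟨P₀, hP₀⟩ := hlim (2 * d / (1 - d) * (2 * d / (1 - d) + 1))
  have hP : d ^ P₀ * (2 * d / (1 - d)) ≤ 1 / 4 := by
    refine le_trans (mul_le_mul_of_nonneg_left ?_ (by positivity)) hP₀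
    nlinarith
  have hP' : d ^ P₀ * (2 * d / (1 - d)) * (2 * d / (1 - d)) ≤ 1 / 4 := by
    rw [mul_assoc]
    refine le_trans (mul_le_mul_of_nonneg_left ?_ (by positivity)) hP₀
    nlinarith
  have hpow : ∀ n : ℕ, ∀ z, z ≠ 0 → α ≤ enorm2 z → R * P₀ ^ 3 ≤ nsq z →
      ‖f z‖ ≤ C * (1 / 2) ^ n * (d ^ 2) ^ nsq z := by
    intro n
    induction n with
    | zero => intro z _ _ _; simpa using hf z
    | succ n ih =>
      intro z hz hα hN
      have := contract hd0 hd1 (by positivity) hP hP' hR le_rfl h0 ih z hz hα hN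
      rwa [pow_succ, ← mul_assoc]
  have hfar : ∀ z, z ≠ 0 → α ≤ enorm2 z → R * P₀ ^ 3 ≤ nsq z → f z = 0 := by
    intro z hz hα hN
    have ht : Tendsto (fun n : ℕ => C * (1 / 2) ^ n * (d ^ 2) ^ nsq z) atTop
        (𝓝 (C * 0 * (d ^ 2) ^ nsq z)) :=
      ((tendsto_pow_atTop_nhds_zero_of_lt_one (by norm_num) (by norm_num)).const_mul C).mul_const _
    have := ge_of_tendsto' ht (fun n => hpow n z hz hα hN)
    simp only [mul_zero, zero_mul] at this
    exact norm_le_zero_iff.mp this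
  have hne : ∀ n : ℕ, ∀ z, z ≠ 0 → α ≤ enorm2 z → R * P₀ ^ 3 ≤ nsq z + n → f z = 0 := by
    intro n
    induction n with
    | zero => intro z hz hα hN; exact hfar z hz hα (by omega)
    | succ n ih =>
      intro z hz hα hN
      obtain ⟨g, p, hdec⟩ := exists_dec hz
      obtain ⟨π, hπ, hy⟩ := proj (w := w) hz hdec
      have hp1 := nsq_pos hdec.2.2.2
      have hz' : z ∈ gam w z := by simp [gam, hz]
      have h1 := h0 z hα
      rw [tsum_eq_single (⟨z, hz'⟩ : gam w z)] at h1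
      · exact h1
      · intro y hyz
        obtain ⟨-, -, h3, h4⟩ := hy y
        have hm : π y ≠ 0 := fun h => hyz (Subtype.ext (h4 h))
        have hm1 : 1 ≤ (π y).natAbs := Nat.one_le_iff_ne_zero.mpr (by simpa using hm)
        have hlt : nsq z + 1 ≤ nsq y.1 := by
          rw [h3]
          have := Nat.mul_le_mul (Nat.mul_le_mul hm1 hm1) hp1
          nlinarith
        have hle : nsq z ≤ nsq y.1 := by omega
        exact ih y.1 (ne_zero_of_le hz hle) (hα.trans (enorm2_mono hle)) (by omega)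
  intro z hα
  by_cases hz : z = 0
  · subst hz
    have hα0 : α ≤ 0 := by simpa [enorm2] using hα
    have h00 : (0 : ℤ × ℤ) ∈ gam w 0 := by simp [gam]
    have h1 := h0 0 hα
    rw [tsum_eq_single (⟨0, h00⟩ : gam w 0)] at h1
    · exact h1
    · intro y hy
      exact hne _ y.1 (fun h => hy (Subtype.ext h)) (hα0.trans (Real.sqrt_nonneg _))
        (Nat.le_add_left _ _)
  · exact hne _ z hz hα (Nat.le_add_left _ _)

end Pool.Agent.Results.MP_4bc625_an.GaussianDecay
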